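import Pool.Agent.Run7.h400.GK.StmC

/-!
# Project GK, piece ADJ
-/

set_option autoImplicit false

namespace Run7.h510.GK

open Polynomial Finset Run7.h400.GK

section general

variable {E : Type} [CommRing E] {R : ℕ}

/-- the polynomial matrix `1 - X M` -/
noncomputable def pm (M : Matrix (Fin R) (Fin R) E) : Matrix (Fin R) (Fin R) E[X] :=
  1 - (X : E[X]) • M.map (C : E → E[X])

theorem pm_deg (M : Matrix (Fin R) (Fin R) E) (i j : Fin R) : (pm M i j).natDegree ≤ 1 := by
  unfold pm
  rw [Matrix.sub_apply, Matrix.smul_apply, Matrix.map_apply, smul_eq_mul]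
  refine (natDegree_sub_le _ _).trans (max_le ?_ ?_)
  · rw [Matrix.one_apply]
    split_ifs <;> simp
  · exact (natDegree_mul_le).trans (by
      have := natDegree_X_le (R := E)
      simp only [natDegree_C, add_zero]
      exact this)

theorem adj_deg (M : Matrix (Fin R) (Fin R) E) (i j : Fin R) :
    ((pm M).adjugate i j).natDegree ≤ R - 1 := by
  rw [Matrix.adjugate_apply, Matrix.det_apply]
  refine natDegree_sum_le_of_forall_le _ _ fun σ _ => ?_
  refine (natDegree_smul_le _ _).trans ?_
  refine (natDegree_prod_le _ _).trans ?_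
  have hσ : ∀ l : Fin R, (((pm M).updateRow j (Pi.single i 1)) (σ l) l).natDegree ≤
      if l = σ.symm j then 0 else 1 := by
    intro l
    by_cases hl : l = σ.symm j
    · subst hl
      rw [if_pos rfl, Equiv.apply_symm_apply, Matrix.updateRow_self]
      by_cases h2 : σ.symm j = i
      · rw [h2, Pi.single_eq_same]; simp
      · rw [Pi.single_eq_of_ne h2]; simp
    · rw [if_neg hl, Matrix.updateRow_ne (fun h => hl (by rw [← h, Equiv.symm_apply_apply]))]
      exact pm_deg M _ _
  refine (Finset.sum_le_sum fun l _ => hσ l).trans ?_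
  rw [← Finset.add_sum_erase _ _ (Finset.mem_univ (σ.symm j)), if_pos rfl, zero_add]
  refine (Finset.sum_le_card_nsmul _ _ 1 fun l _ => by split_ifs <;> omega).trans ?_
  rw [Finset.card_erase_of_mem (Finset.mem_univ _), Finset.card_univ, Fintype.card_fin]
  simp

/-- `∑ X^r M^r` -/
noncomputable def geo (M : Matrix (Fin R) (Fin R) E) : Matrix (Fin R) (Fin R) (PowerSeries E) :=
  Matrix.of fun i j => PowerSeries.mk fun r => (M ^ r) i j

/-- `1 - X M` over the power series -/
noncomputable def sm (M : Matrix (Fin R) (Fin R) E) : Matrix (Fin R) (Fin R) (PowerSeries E) :=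
  1 - (PowerSeries.X : PowerSeries E) • M.map (PowerSeries.C (R := E))

theorem sm_eq (M : Matrix (Fin R) (Fin R) E) :
    (Polynomial.coeToPowerSeries.ringHom (R := E)).mapMatrix (pm M) = sm M := by
  ext1 i j
  unfold pm sm
  rw [RingHom.mapMatrix_apply, Matrix.map_apply, Matrix.sub_apply, Matrix.smul_apply,
    Matrix.map_apply, Matrix.sub_apply, Matrix.smul_apply, Matrix.map_apply, map_sub, smul_eq_mul,
    smul_eq_mul, map_mul]
  congr 1
  · rw [Matrix.one_apply, Matrix.one_apply]
    split_ifs <;> simp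
  · simp

theorem sm_mul_geo (M : Matrix (Fin R) (Fin R) E) : sm M * geo M = 1 := by
  unfold sm
  rw [sub_mul, one_mul, Matrix.smul_mul]
  ext1 i j
  rw [Matrix.sub_apply, Matrix.smul_apply, smul_eq_mul]
  ext r
  rw [map_sub, Matrix.one_apply]
  have h1 : ∀ r, PowerSeries.coeff r (geo M i j) = (M ^ r) i j := by
    intro r
    unfold geo
    rw [Matrix.of_apply, PowerSeries.coeff_mk]
  cases r with
  | zero =>
    rw [h1, pow_zero, PowerSeries.coeff_zero_X_mul, sub_zero, Matrix.one_apply]
    split_ifs <;> simp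
  | succ r =>
    rw [h1, PowerSeries.coeff_succ_X_mul, Matrix.mul_apply, map_sum, pow_succ', Matrix.mul_apply]
    have h2 : (PowerSeries.coeff (r + 1)) (if i = j then (1 : PowerSeries E) else 0) = 0 := by
      split_ifs
      · rw [PowerSeries.coeff_one, if_neg (by omega)]
      · simp
    rw [h2, sub_eq_zero]
    refine Finset.sum_congr rfl fun l _ => ?_
    rw [Matrix.map_apply, PowerSeries.coeff_C_mul]
    congr 1
    unfold geo
    rw [Matrix.of_apply, PowerSeries.coeff_mk]

theorem adj_sm (M : Matrix (Fin R) (Fin R) E) : (sm M).adjugate = dX M • geo M := by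
  have h1 : (sm M).adjugate * (sm M * geo M) = (sm M).adjugate := by
    rw [sm_mul_geo, mul_one]
  rw [← h1, ← mul_assoc, Matrix.adjugate_mul, Matrix.smul_mul, one_mul]
  rfl

/-- the polynomial `tr (adj (1 - X M) N)` -/
noncomputable def tau (M N : Matrix (Fin R) (Fin R) E) : E[X] :=
  ((pm M).adjugate * N.map (C : E → E[X])).trace

theorem tau_deg (M N : Matrix (Fin R) (Fin R) E) : (tau M N).natDegree ≤ R - 1 := by
  unfold tau
  rw [Matrix.trace]
  refine natDegree_sum_le_of_forall_le _ _ fun i _ => ?_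
  rw [Matrix.diag_apply, Matrix.mul_apply]
  refine natDegree_sum_le_of_forall_le _ _ fun l _ => ?_
  refine natDegree_mul_le.trans ?_
  rw [Matrix.map_apply, natDegree_C, add_zero]
  exact adj_deg M i l

theorem tau_eval (M N : Matrix (Fin R) (Fin R) E) :
    (tau M N).eval 1 = ((1 - M).adjugate * N).trace := by
  unfold tau
  have h0 : (evalRingHom (1 : E)).mapMatrix (pm M) = 1 - M := by
    ext1 i j
    unfold pm
    rw [RingHom.mapMatrix_apply, Matrix.map_apply, Matrix.sub_apply, Matrix.smul_apply,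
      Matrix.map_apply, Matrix.sub_apply, map_sub, smul_eq_mul, map_mul]
    congr 1
    · rw [Matrix.one_apply, Matrix.one_apply]
      split_ifs <;> simp
    · simp
  have h2 : (evalRingHom (1 : E)).mapMatrix (N.map (C : E → E[X])) = N := by
    ext1 i j
    rw [RingHom.mapMatrix_apply, Matrix.map_apply, Matrix.map_apply]
    simp
  have h3 : (1 - M).adjugate * N =
      (evalRingHom (1 : E)).mapMatrix ((pm M).adjugate * N.map (C : E → E[X])) := by
    rw [map_mul, RingHom.map_adjugate, h0, h2]
  rw [h3, Matrix.trace, Matrix.trace, eval_finsetSum]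
  rfl

theorem tau_coe (M N : Matrix (Fin R) (Fin R) E) :
    (tau M N : PowerSeries E) = dX M * PowerSeries.mk fun r => (M ^ r * N).trace := by
  have h3 : (Polynomial.coeToPowerSeries.ringHom (R := E)).mapMatrix
      ((pm M).adjugate * N.map (C : E → E[X])) =
      (dX M • geo M) * N.map (PowerSeries.C (R := E)) := by
    rw [map_mul, RingHom.map_adjugate, sm_eq, adj_sm]
    congr 1
    ext1 i j
    rw [RingHom.mapMatrix_apply, Matrix.map_apply, Matrix.map_apply, Matrix.map_apply]
    simp
  have h4 : (tau M N : PowerSeries E) = ((Polynomial.coeToPowerSeries.ringHom (R := E)).mapMatrix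
      ((pm M).adjugate * N.map (C : E → E[X]))).trace := by
    unfold tau
    rw [Matrix.trace, Matrix.trace]
    have : ((∑ i : Fin R, ((pm M).adjugate * N.map (C : E → E[X])).diag i : E[X]) : PowerSeries E)
      = (Polynomial.coeToPowerSeries.ringHom (R := E))
        (∑ i : Fin R, ((pm M).adjugate * N.map (C : E → E[X])).diag i) := rfl
    rw [this, map_sum]
    rfl
  rw [h4, h3, Matrix.smul_mul, Matrix.trace_smul, smul_eq_mul]
  congr 1
  ext r
  rw [PowerSeries.coeff_mk, Matrix.trace, Matrix.trace, map_sum]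
  refine Finset.sum_congr rfl fun i _ => ?_
  rw [Matrix.diag_apply, Matrix.diag_apply, Matrix.mul_apply, Matrix.mul_apply, map_sum]
  refine Finset.sum_congr rfl fun l _ => ?_
  rw [Matrix.map_apply, PowerSeries.coeff_mul_C]
  congr 1
  unfold geo
  rw [Matrix.of_apply, PowerSeries.coeff_mk]

theorem sum_coeff (M N : Matrix (Fin R) (Fin R) E) (hR : 1 ≤ R) (J : ℕ) (hJ : R + 1 ≤ J) :
    ∑ j ∈ range J, ∑ r ∈ range j, PowerSeries.coeff (j - 1 - r) (dX M) * (M ^ r * N).trace =
      ((1 - M).adjugate * N).trace := by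
  have h1 : (X * tau M N).natDegree < J := by
    refine lt_of_le_of_lt natDegree_mul_le ?_
    have h2 := tau_deg M N
    have h3 := natDegree_X_le (R := E)
    omega
  have h2 := eval_eq_sum_range' h1 (1 : E)
  rw [eval_mul, eval_X, one_mul, tau_eval] at h2
  rw [h2]
  refine Finset.sum_congr rfl fun j _ => ?_
  rw [one_pow, mul_one]
  cases j with
  | zero => simp
  | succ j =>
    rw [coeff_X_mul, ← Polynomial.coeff_coe, tau_coe, PowerSeries.coeff_mul,
      Finset.Nat.sum_antidiagonal_eq_sum_range_succ_mk]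
    rw [← Finset.sum_range_reflect]
    refine Finset.sum_congr rfl fun r hr => ?_
    have hr' : r ≤ j := by
      have := Finset.mem_range.1 hr
      omega
    dsimp only
    rw [PowerSeries.coeff_mk]
    have e1 : j + 1 - 1 - (j + 1 - 1 - r) = r := by omega
    have e2 : j + 1 - 1 - r = j - r := by omega
    rw [e1, e2]

end general

section closed

theorem mp_monic {Fq : Type} [Field Fq] {j : ℕ} (c : Fin j → Fq) :
    (mp c).Monic ∧ (mp c).natDegree = j := by
  have h : (∑ i : Fin j, C (c i) * X ^ (i : ℕ) : Fq[X]).degree < j := by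
    refine (degree_sum_le _ _).trans_lt ?_
    rw [Finset.sup_lt_iff (by exact WithBot.bot_lt_coe j)]
    intro i _
    refine (degree_C_mul_X_pow_le _ _).trans_lt ?_
    exact_mod_cast i.2
  unfold mp
  refine ⟨monic_X_pow_add h, ?_⟩
  rw [natDegree_add_eq_left_of_degree_lt (by rwa [degree_X_pow]), natDegree_X_pow]

theorem neg_one_pow_card {Fq E : Type} [Field Fq] [Fintype Fq] [Field E] [Algebra Fq E] (a : ℕ) :
    (-1 : E) ^ (a * (Fintype.card Fq - 1)) = 1 := by
  have h1 : (-1 : Fq) ^ (Fintype.card Fq - 1) = 1 :=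
    FiniteField.pow_card_sub_one_eq_one _ (by simp)
  have h2 := congrArg (algebraMap Fq E) h1
  rw [map_pow, map_neg, map_one] at h2
  rw [mul_comm, pow_mul, h2, one_pow]

theorem wt_eq {Fq K : Type} [Field Fq] [Fintype Fq] [Field K] [Algebra Fq K] [IsAlgClosed K]
    (n : ℕ) (s : Multiset K) (hs : Multiset.card s = n * (Fintype.card Fq - 1)) {j : ℕ}
    (c : Fin j → Fq) :
    wt (fun ρ : K => ((s.map fun t => X - C t).prod).eval ρ) (mp c) =
      (s.map fun t => aeval t (mp c)).prod := by
  unfold wt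
  obtain ⟨hm, hd⟩ := mp_monic c
  set f : K[X] := (mp c).map (algebraMap Fq K) with hf
  have hfm : f.Monic := hm.map _
  have hfd : f.natDegree = j := by rw [hf, natDegree_map, hd]
  have hsp : f.Splits := IsAlgClosed.splits f
  have hcard : Multiset.card f.roots = j := by
    rw [← hfd]; exact hsp.natDegree_eq_card_roots.symm
  have hev : ∀ t : K, aeval t (mp c) = (f.roots.map fun ρ => t - ρ).prod := by
    intro t
    have h1 : f = (f.roots.map fun ρ => X - C ρ).prod := by
      have := hsp.eq_prod_roots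
      rw [hfm.leadingCoeff, C_1, one_mul] at this
      exact this
    rw [aeval_def, ← eval_map, ← hf]
    conv_lhs => rw [h1]
    rw [eval_multiset_prod, Multiset.map_map]
    simp
  have e1 : ∀ ρ : K, ((s.map fun t => X - C t).prod).eval ρ = (s.map fun t => ρ - t).prod := by
    intro ρ
    rw [eval_multiset_prod, Multiset.map_map]
    simp
  simp only [e1, hev]
  rw [Multiset.prod_map_prod_map]
  have e2 : ∀ t : K, (f.roots.map fun ρ => ρ - t).prod =
      (-1) ^ j * (f.roots.map fun ρ => t - ρ).prod := by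
    intro t
    have : (fun ρ : K => ρ - t) = fun ρ => (-1) * (t - ρ) := by funext ρ; ring
    rw [this, Multiset.prod_map_mul, Multiset.map_const', Multiset.prod_replicate, hcard]
  simp only [e2]
  rw [Multiset.prod_map_mul, Multiset.map_const', Multiset.prod_replicate, hs, ← pow_mul,
    ← mul_assoc, neg_one_pow_card, one_mul]

theorem eval_Pr {K : Type} [Field K] (q : ℕ) (P : K[X]) (r : ℕ) (ρ : K) :
    (Pr q P r).eval ρ = ∏ l ∈ range r, P.eval (ρ ^ (q ^ l)) := by
  unfold Pr
  rw [eval_prod]
  refine Finset.prod_congr rfl fun l _ => ?_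
  rw [expand_eval]

theorem adj_closed (hPOW : S_POW) (hEUL : S_EUL) (hTR1 : S_TR1) (hDET : S_DET) (hNEW : S_NEW)
    (Fq K : Type) [Field Fq] [Fintype Fq] [Field K] [Algebra Fq K] [IsAlgClosed K]
    (q n m R J : ℕ) (s : Multiset K) (hq : q = Fintype.card Fq) (hn : 1 ≤ n) (hR : n + m ≤ R)
    (hJ : R + 1 ≤ J) (hs : Multiset.card s = n * (q - 1)) :
    ∑ j ∈ range J, ∑ c : Fin j → Fq, (s.map fun t => aeval t (mp c)).prod *
      algebraMap Fq K (ps m (mp c)) =
    - ((1 - MatP q ((s.map fun t => X - C t).prod) R).adjugate *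
        MatM q ((s.map fun t => X - C t).prod) R m).trace := by
  set P : K[X] := (s.map fun t => X - C t).prod with hP
  have hq2 : 2 ≤ q := by rw [hq]; exact Fintype.one_lt_card
  have hdeg : P.natDegree ≤ n * (q - 1) := by
    rw [hP, natDegree_multiset_prod_X_sub_C_eq_card, hs]
  set M := MatP q P R with hM
  set N := MatM q P R m with hN
  rw [← sum_coeff M N (by omega) J hJ, ← Finset.sum_neg_distrib]
  refine Finset.sum_congr rfl fun j _ => ?_
  have h1 := hEUL Fq K K (fun ρ => P.eval ρ) (fun ρ => ρ ^ m) j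
  have h2 : ∑ c : Fin j → Fq, (s.map fun t => aeval t (mp c)).prod *
      algebraMap Fq K (ps m (mp c)) =
      ∑ c : Fin j → Fq, ad (fun ρ : K => ρ ^ m) (mp c) * wt (fun ρ : K => P.eval ρ) (mp c) := by
    refine Finset.sum_congr rfl fun c _ => ?_
    rw [hNEW Fq K m (mp c) (mp_monic c).1, hP, wt_eq n s (by rw [hs, hq]) c, mul_comm]
  rw [h2, h1, ← Finset.sum_neg_distrib]
  refine Finset.sum_congr rfl fun r hr => ?_
  have hdet : ∑ b : Fin (j - 1 - r) → Fq, wt (fun ρ : K => P.eval ρ) (mp b) =
      PowerSeries.coeff (j - 1 - r) (dX M) := by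
    rw [hM, hP, hDET Fq K q n R s hq hn (by omega) hs]
    refine Finset.sum_congr rfl fun b _ => ?_
    rw [wt_eq n s (by rw [hs, hq]) b]
  have htr := hTR1 Fq K q n m R (r + 1) P hq hn hdeg hR (by omega)
  rw [hdet, ← mul_neg]
  congr 1
  have e3 : ∑ ρ ∈ fr K (Fintype.card Fq) (r + 1), ρ ^ m *
      ∏ l ∈ range (r + 1), P.eval (ρ ^ (Fintype.card Fq ^ l)) =
      ∑ ρ ∈ fr K q (r + 1), ρ ^ m * (Pr q P (r + 1)).eval ρ := by
    rw [hq]
    refine Finset.sum_congr rfl fun ρ _ => ?_
    rw [eval_Pr]
  rw [e3, htr]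
  congr 1
  rw [Matrix.trace, Finset.sum_range]
  refine Finset.sum_congr rfl fun i _ => ?_
  rw [Matrix.diag_apply, hM, hN, hPOW K q n m R P hq2 hn hdeg hR r i i]
  have hQ : 1 ≤ q ^ (r + 1) := Nat.one_le_pow _ _ (by omega)
  have e4 : q ^ (r + 1) * (i : ℕ) + q ^ (r + 1) - 1 = (q ^ (r + 1) - 1) * ((i : ℕ) + 1) + i := by
    obtain ⟨a, ha⟩ := Nat.exists_eq_add_of_le hQ
    rw [ha]
    have : (1 + a) * (i : ℕ) + (1 + a) - 1 = (1 + a) * i + a := by omega
    rw [this, Nat.add_sub_cancel_left]
    ring
  have e5 : (X ^ ((i : ℕ) + m) : K[X]) = X ^ (i : ℕ) * X ^ m := pow_add _ _ _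
  rw [e4, e5, mul_assoc, coeff_X_pow_mul]

end closed

theorem t_ADJ : S_POW → S_EUL → S_TR1 → S_DET → S_NEW → S_ADJ := by
  intro hPOW hEUL hTR1 hDET hNEW Fq E _ _ _ _ q n m R J s hq hn hR hJ hs
  set K := AlgebraicClosure E
  set f : E →+* K := algebraMap E K with hf
  have hinj : Function.Injective f := (algebraMap E K).injective
  apply hinj
  have hmain := adj_closed hPOW hEUL hTR1 hDET hNEW Fq K q n m R J (s.map f) hq hn hR hJ
    (by rw [Multiset.card_map, hs])
  have hP : ((s.map f).map fun t => X - C t).prod = ((s.map fun t => X - C t).prod).map f := by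
    rw [Polynomial.map_multiset_prod, Multiset.map_map, Multiset.map_map]
    congr 1
    refine Multiset.map_congr rfl fun t _ => ?_
    simp
  rw [hP] at hmain
  set P : E[X] := (s.map fun t => X - C t).prod with hPdef
  have hMP : MatP q (P.map f) R = f.mapMatrix (MatP q P R) := by
    ext1 i j
    rw [RingHom.mapMatrix_apply, Matrix.map_apply]
    unfold MatP
    rw [Matrix.of_apply, Matrix.of_apply, ← coeff_map]
    simp
  have hMM : MatM q (P.map f) R m = f.mapMatrix (MatM q P R m) := by
    ext1 i j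
    rw [RingHom.mapMatrix_apply, Matrix.map_apply]
    unfold MatM
    rw [Matrix.of_apply, Matrix.of_apply, ← coeff_map]
    simp
  rw [hMP, hMM] at hmain
  have hR' : f (-((1 - MatP q P R).adjugate * MatM q P R m).trace) =
      -((1 - f.mapMatrix (MatP q P R)).adjugate * f.mapMatrix (MatM q P R m)).trace := by
    rw [map_neg]
    congr 1
    have : (1 - f.mapMatrix (MatP q P R)).adjugate * f.mapMatrix (MatM q P R m) =
        f.mapMatrix ((1 - MatP q P R).adjugate * MatM q P R m) := by
      rw [map_mul, RingHom.map_adjugate, map_sub, map_one]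
    rw [this, Matrix.trace, Matrix.trace, map_sum]
    rfl
  rw [hR', ← hmain, map_sum]
  refine Finset.sum_congr rfl fun j _ => ?_
  rw [map_sum]
  refine Finset.sum_congr rfl fun c _ => ?_
  rw [map_mul, map_multiset_prod, Multiset.map_map, Multiset.map_map]
  have e1 : (s.map (⇑f ∘ fun t => aeval t (mp c))).prod =
      (s.map ((fun t => aeval t (mp c)) ∘ ⇑f)).prod := by
    congr 1
    refine Multiset.map_congr rfl fun t _ => ?_
    show f (aeval t (mp c)) = aeval (f t) (mp c)
    rw [hf, aeval_algebraMap_apply]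
  have e2 : f (algebraMap Fq E (ps m (mp c))) = algebraMap Fq K (ps m (mp c)) :=
    (IsScalarTower.algebraMap_apply Fq E K _).symm
  rw [e1, e2]

end Run7.h510.GK
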